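import Pool.Agent.N367.LE.Stm2

/-!
# The second sum of the form `x ^ 2 + n x y - y ^ 2`
-/

set_option autoImplicit false

namespace Pool.Agent.N861.LEsy

open Pool.Agent.N367.LE Finset

theorem quad_sum {F : Type} [Field F] [Fintype F] [DecidableEq F] (hF : ringChar F ≠ 2) (e : F)
    (he : e ≠ 0) : ∑ u : F, quadraticChar F (u ^ 2 - e) = -1 := by
  have h2 : (2 : F) ≠ 0 := Ring.two_ne_zero hF
  have h1 : ∀ u : F, quadraticChar F (u ^ 2 - e) =
      ((univ.filter (fun v : F => v ^ 2 = u ^ 2 - e)).card : ℤ) - 1 := by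
    intro u
    have h := quadraticChar_card_sqrts hF (u ^ 2 - e)
    rw [eq_sub_iff_add_eq, ← h, Set.toFinset_ofPred]
  have h3 : (univ.filter (fun p : F × F => p.2 ^ 2 = p.1 ^ 2 - e)).card =
      (univ.filter (fun s : F => s ≠ 0)).card := by
    refine Finset.card_nbij' (fun p => p.1 - p.2) (fun s => ((s + e / s) / 2, (e / s - s) / 2))
      ?_ ?_ ?_ ?_
    · intro p hp
      rw [mem_coe, mem_filter] at hp ⊢
      refine ⟨mem_univ _, fun h => he ?_⟩
      have h4 : e = (p.1 - p.2) * (p.1 + p.2) := by linear_combination hp.2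
      have h' : p.1 - p.2 = 0 := h
      rw [h4, h', zero_mul]
    · intro s hs
      rw [mem_coe, mem_filter] at hs ⊢
      refine ⟨mem_univ _, ?_⟩
      have := hs.2
      field_simp
      ring
    · intro p hp
      rw [mem_coe, mem_filter] at hp
      have h4 : e = (p.1 - p.2) * (p.1 + p.2) := by linear_combination hp.2
      have h5 : p.1 - p.2 ≠ 0 := fun h => he (by rw [h4, h, zero_mul])
      have h6 : e / (p.1 - p.2) = p.1 + p.2 := by
        rw [div_eq_iff h5, h4]; ring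
      refine Prod.ext ?_ ?_
      · show (p.1 - p.2 + e / (p.1 - p.2)) / 2 = p.1
        rw [h6]; field_simp; ring
      · show (e / (p.1 - p.2) - (p.1 - p.2)) / 2 = p.2
        rw [h6]; field_simp; ring
    · intro s hs
      show (s + e / s) / 2 - (e / s - s) / 2 = s
      rw [mem_coe, mem_filter] at hs
      have := hs.2
      field_simp
      ring
  have h4 : ∑ u : F, ((univ.filter (fun v : F => v ^ 2 = u ^ 2 - e)).card : ℤ) =
      ((univ.filter (fun p : F × F => p.2 ^ 2 = p.1 ^ 2 - e)).card : ℤ) := by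
    rw [Finset.card_filter]
    push_cast
    rw [← Finset.univ_product_univ, Finset.sum_product]
    refine sum_congr rfl fun u _ => ?_
    rw [Finset.card_filter]
    push_cast
    rfl
  have h5 : ((univ.filter (fun s : F => s ≠ 0)).card : ℤ) = Fintype.card F - 1 := by
    have := Finset.card_filter_add_card_filter_not (s := (univ : Finset F)) (fun s : F => s = 0)
    rw [Finset.filter_eq' univ (0 : F), if_pos (mem_univ _), card_singleton, card_univ] at this
    rw [← this]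
    push_cast
    ring
  rw [sum_congr rfl fun u _ => h1 u, sum_sub_distrib, h4, h3, h5, sum_const, card_univ, nsmul_eq_mul]
  ring

theorem quad_sum' {F : Type} [Field F] [Fintype F] [DecidableEq F] (hF : ringChar F ≠ 2) (b c : F)
    (he : b ^ 2 - 4 * c ≠ 0) : ∑ u : F, quadraticChar F (u ^ 2 + b * u + c) = -1 := by
  have h2 : (2 : F) ≠ 0 := Ring.two_ne_zero hF
  have h4 : (4 : F) ≠ 0 := by
    have : (4 : F) = 2 * 2 := by norm_num
    rw [this]; exact mul_ne_zero h2 h2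
  have h := quad_sum hF ((b ^ 2 - 4 * c) / 4) (div_ne_zero he h4)
  rw [← h]
  refine Fintype.sum_equiv (Equiv.addRight (b / 2)) _ _ fun u => ?_
  congr 1
  show u ^ 2 + b * u + c = (u + b / 2) ^ 2 - (b ^ 2 - 4 * c) / 4
  field_simp
  ring

theorem sq_sum {F : Type} [Field F] [Fintype F] [DecidableEq F] :
    ∑ u : F, quadraticChar F (u ^ 2) = (Fintype.card F : ℤ) - 1 := by
  have h5 : ((univ.filter (fun s : F => s ≠ 0)).card : ℤ) = Fintype.card F - 1 := by
    have := Finset.card_filter_add_card_filter_not (s := (univ : Finset F)) (fun s : F => s = 0)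
    rw [Finset.filter_eq' univ (0 : F), if_pos (mem_univ _), card_singleton, card_univ] at this
    rw [← this]
    push_cast
    ring
  rw [← h5, Finset.card_filter]
  push_cast
  refine sum_congr rfl fun u _ => ?_
  by_cases h : u = 0
  · simp [h]
  · rw [if_pos h, quadraticChar_sq_one' h]

/-- one prime -/
theorem one (l : ℕ) (hl : l.Prime) (hl2 : l ≠ 2) (n : ℕ) (hn : jacobiSym ((n : ℤ) ^ 2 + 4) l = -1)
    (y : ℤ) : ∑ x ∈ range l, jacobiSym ((x : ℤ) ^ 2 + n * (x * y) - y ^ 2) l =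
      (if (l : ℤ) ∣ y then (l : ℤ) else 0) + (-1) := by
  haveI : Fact l.Prime := ⟨hl⟩
  have hF : ringChar (ZMod l) ≠ 2 := by rwa [ZMod.ringChar_zmod_n]
  have h1 : ∑ x ∈ range l, jacobiSym ((x : ℤ) ^ 2 + n * (x * y) - y ^ 2) l =
      ∑ u : ZMod l, quadraticChar (ZMod l) (u ^ 2 + (n * (y : ZMod l)) * u + (-(y : ZMod l) ^ 2)) := by
    refine Finset.sum_nbij' (fun x => (x : ZMod l)) (fun u => u.val) ?_ ?_ ?_ ?_ ?_
    · intro x _
      exact mem_univ _
    · intro u _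
      exact mem_range.2 (ZMod.val_lt u)
    · intro x hx
      exact ZMod.val_cast_of_lt (mem_range.1 hx)
    · intro u _
      exact ZMod.natCast_zmod_val u
    · intro x _
      rw [← jacobiSym.legendreSym.to_jacobiSym, legendreSym]
      congr 1
      push_cast
      ring
  rw [h1]
  by_cases hy : (l : ℤ) ∣ y
  · have h2 : (y : ZMod l) = 0 := (ZMod.intCast_zmod_eq_zero_iff_dvd y l).2 hy
    rw [if_pos hy, h2]
    have h3 := sq_sum (F := ZMod l)
    rw [ZMod.card] at h3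
    rw [← sub_eq_add_neg, ← h3]
    refine sum_congr rfl fun u _ => ?_
    congr 1
    ring
  · rw [if_neg hy, zero_add]
    apply quad_sum' hF
    have h2 : (y : ZMod l) ≠ 0 := fun h => hy ((ZMod.intCast_zmod_eq_zero_iff_dvd y l).1 h)
    have h3 : (n : ZMod l) ^ 2 + 4 ≠ 0 := by
      intro h
      rw [← jacobiSym.legendreSym.to_jacobiSym] at hn
      have : legendreSym l ((n : ℤ) ^ 2 + 4) = 0 := by
        rw [legendreSym.eq_zero_iff]
        push_cast
        exact h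
      omega
    have h4 : ((n : ZMod l) * y) ^ 2 - 4 * (-(y : ZMod l) ^ 2) = ((n : ZMod l) ^ 2 + 4) * (y : ZMod l) ^ 2 := by
      ring
    rw [h4]
    exact mul_ne_zero h3 (pow_ne_zero 2 h2)

/-- Chinese remainder theorem for sums -/
theorem crt_sum (m k : ℕ) (h : m.Coprime k) (hm : 0 < m) (hk : 0 < k) (a b : ℕ → ℤ)
    (ha : ∀ x, a (x % m) = a x) (hb : ∀ x, b (x % k) = b x) :
    ∑ x ∈ range (m * k), a x * b x = (∑ x ∈ range m, a x) * ∑ x ∈ range k, b x := by
  rw [Finset.sum_mul_sum, ← Finset.sum_product']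
  refine Finset.sum_nbij' (fun x => (x % m, x % k)) (fun p => (Nat.chineseRemainder h p.1 p.2 : ℕ))
    ?_ ?_ ?_ ?_ ?_
  · intro x _
    rw [mem_product, mem_range, mem_range]
    exact ⟨Nat.mod_lt _ hm, Nat.mod_lt _ hk⟩
  · intro p _
    exact mem_range.2 (Nat.chineseRemainder_lt_mul h _ _ hm.ne' hk.ne')
  · intro x hx
    rw [mem_range] at hx
    have h1 := (Nat.chineseRemainder h (x % m) (x % k)).2
    have h2 : (Nat.chineseRemainder h (x % m) (x % k) : ℕ) ≡ x [MOD m * k] :=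
      (Nat.modEq_and_modEq_iff_modEq_mul h).1 ⟨h1.1.trans (Nat.mod_modEq _ _),
        h1.2.trans (Nat.mod_modEq _ _)⟩
    exact Nat.ModEq.eq_of_lt_of_lt h2 (Nat.chineseRemainder_lt_mul h _ _ hm.ne' hk.ne') hx
  · intro p hp
    rw [mem_product, mem_range, mem_range] at hp
    have h1 := (Nat.chineseRemainder h p.1 p.2).2
    refine Prod.ext ?_ ?_
    · have h2 := h1.1
      unfold Nat.ModEq at h2
      exact h2.trans (Nat.mod_eq_of_lt hp.1)
    · have h2 := h1.2
      unfold Nat.ModEq at h2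
      exact h2.trans (Nat.mod_eq_of_lt hp.2)
  · intro x _
    show a x * b x = a (x % m) * b (x % k)
    rw [ha, hb]

theorem per (l : ℕ) (n : ℕ) (y : ℤ) (x N : ℕ) (h : l ∣ N) :
    jacobiSym (((x % N : ℕ) : ℤ) ^ 2 + n * (((x % N : ℕ) : ℤ) * y) - y ^ 2) l =
      jacobiSym ((x : ℤ) ^ 2 + n * (x * y) - y ^ 2) l := by
  rw [jacobiSym.mod_left (((x % N : ℕ) : ℤ) ^ 2 + n * (((x % N : ℕ) : ℤ) * y) - y ^ 2),
    jacobiSym.mod_left ((x : ℤ) ^ 2 + n * (x * y) - y ^ 2)]
  congr 1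
  have h1 : ((x % N : ℕ) : ℤ) ≡ x [ZMOD l] := by
    have : (x % N) ≡ x [MOD l] := (Nat.mod_modEq x N).of_dvd h
    exact Int.natCast_modEq_iff.2 this
  exact ((h1.pow 2).add ((h1.mul_right y).mul_left n)).sub_right _

/-- the inner sum -/
theorem inner (n : ℕ) (y : ℤ) (S : Finset ℕ) (hS : ∀ l ∈ S, l.Prime ∧ l ≠ 2)
    (hn : ∀ l ∈ S, jacobiSym ((n : ℤ) ^ 2 + 4) l = -1) :
    ∑ x ∈ range (∏ l ∈ S, l), ∏ l ∈ S, jacobiSym ((x : ℤ) ^ 2 + n * (x * y) - y ^ 2) l =
      ∏ l ∈ S, ((if (l : ℤ) ∣ y then (l : ℤ) else 0) + (-1)) := by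
  classical
  induction S using Finset.induction_on with
  | empty => simp
  | insert l S hl ih =>
    rw [prod_insert hl, prod_insert hl, ← ih (fun a ha => hS a (mem_insert_of_mem ha))
      (fun a ha => hn a (mem_insert_of_mem ha)), ← one l (hS l (mem_insert_self _ _)).1
      (hS l (mem_insert_self _ _)).2 n (hn l (mem_insert_self _ _)) y]
    have hc : l.Coprime (∏ l ∈ S, l) := by
      apply Nat.Coprime.prod_right
      intro a ha
      refine (Nat.coprime_primes (hS l (mem_insert_self _ _)).1 (hS a (mem_insert_of_mem ha)).1).2 ?_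
      rintro rfl
      exact hl ha
    have h1 := crt_sum l (∏ l ∈ S, l) hc (hS l (mem_insert_self _ _)).1.pos
      (Finset.prod_pos fun a ha => (hS a (mem_insert_of_mem ha)).1.pos)
      (fun x => jacobiSym ((x : ℤ) ^ 2 + n * (x * y) - y ^ 2) l)
      (fun x => ∏ l ∈ S, jacobiSym ((x : ℤ) ^ 2 + n * (x * y) - y ^ 2) l)
      (fun x => per l n y x l dvd_rfl)
      (fun x => prod_congr rfl fun a ha => per a n y x _ (dvd_prod_of_mem _ ha))
    rw [← h1]
    refine sum_congr rfl fun x _ => ?_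
    rw [prod_insert hl]

/-- the weights on multiples of `d` -/
theorem weight (d M : ℕ) : ∑ y ∈ range (d * M), (if (d : ℤ) ∣ (y : ℤ) then
    (6 * (y : ℤ) ^ 2 - 6 * y * ((d * M : ℕ) : ℤ) + ((d * M : ℕ) : ℤ) ^ 2) else 0) =
      (d : ℤ) * ((d * M : ℕ) : ℤ) := by
  rcases Nat.eq_zero_or_pos d with rfl | hd
  · simp
  have h1 : ∑ y ∈ range (d * M), (if (d : ℤ) ∣ (y : ℤ) then
      (6 * (y : ℤ) ^ 2 - 6 * y * ((d * M : ℕ) : ℤ) + ((d * M : ℕ) : ℤ) ^ 2) else 0) =
      ∑ z ∈ range M, (6 * ((d * z : ℕ) : ℤ) ^ 2 - 6 * ((d * z : ℕ) : ℤ) * ((d * M : ℕ) : ℤ) +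
        ((d * M : ℕ) : ℤ) ^ 2) := by
    rw [← Finset.sum_filter]
    symm
    refine Finset.sum_nbij' (fun z => d * z) (fun y => y / d) ?_ ?_ ?_ ?_ ?_
    · intro z hz
      rw [mem_range] at hz
      rw [mem_filter, mem_range]
      exact ⟨Nat.mul_lt_mul_of_pos_left hz hd, by exact_mod_cast dvd_mul_right d z⟩
    · intro y hy
      rw [mem_filter, mem_range] at hy
      rw [mem_range]
      exact Nat.div_lt_of_lt_mul hy.1
    · intro z _
      exact Nat.mul_div_cancel_left z hd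
    · intro y hy
      rw [mem_filter] at hy
      exact Nat.mul_div_cancel' (by exact_mod_cast hy.2)
    · intro z _
      rfl
  rw [h1]
  have h2 : ∀ K : ℕ, ∑ z ∈ range K, (6 * ((d * z : ℕ) : ℤ) ^ 2 - 6 * ((d * z : ℕ) : ℤ) * ((d * M : ℕ) : ℤ) +
        ((d * M : ℕ) : ℤ) ^ 2) = (d : ℤ) ^ 2 * ((K : ℤ) * (K - 1) * (2 * K - 1) - 3 * M * K * (K - 1) +
          M ^ 2 * K) := by
    intro K
    induction K with
    | zero => simp
    | succ K ih =>
      rw [sum_range_succ, ih]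
      push_cast
      ring
  rw [h2]
  push_cast
  ring

theorem prod_if (y : ℤ) (A : Finset ℕ) (hA : ∀ l ∈ A, l.Prime) :
    ∏ l ∈ A, (if (l : ℤ) ∣ y then (l : ℤ) else 0) =
      if ((∏ l ∈ A, l : ℕ) : ℤ) ∣ y then ((∏ l ∈ A, l : ℕ) : ℤ) else 0 := by
  by_cases h : ∀ l ∈ A, (l : ℤ) ∣ y
  · have h1 : ((∏ l ∈ A, l : ℕ) : ℤ) ∣ y := by
      rw [Int.natCast_dvd]
      apply Finset.prod_primes_dvd
      · intro a ha
        exact (hA a ha).prime
      · intro a ha
        exact Int.natCast_dvd.1 (h a ha)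
    rw [if_pos h1, prod_congr rfl fun l hl => if_pos (h l hl)]
    push_cast
    rfl
  · push Not at h
    obtain ⟨l, hl, hly⟩ := h
    rw [prod_eq_zero hl (if_neg hly), if_neg]
    intro h1
    exact hly (dvd_trans (by exact_mod_cast dvd_prod_of_mem (fun l => l) hl) h1)

theorem sum_eq (n : ℕ) (S : Finset ℕ) (hS : ∀ l ∈ S, l.Prime ∧ l ≠ 2)
    (hn : ∀ l ∈ S, jacobiSym ((n : ℤ) ^ 2 + 4) l = -1) (N : ℕ) (hN : N = ∏ l ∈ S, l) :
    (∑ x ∈ range N, ∑ y ∈ range N, (∏ l ∈ S, jacobiSym ((x : ℤ) ^ 2 + n * (x * y) - (y : ℤ) ^ 2) l) *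
      (6 * (y : ℤ) ^ 2 - 6 * y * N + (N : ℤ) ^ 2) : ℤ) = (N : ℤ) * ∏ l ∈ S, ((l : ℤ) ^ 2 + (-1)) := by
  classical
  rw [sum_comm]
  have h1 : ∀ y ∈ range N, ∑ x ∈ range N,
      (∏ l ∈ S, jacobiSym ((x : ℤ) ^ 2 + n * (x * y) - (y : ℤ) ^ 2) l) *
      (6 * (y : ℤ) ^ 2 - 6 * y * N + (N : ℤ) ^ 2) =
      ∑ A ∈ S.powerset, ((-1) ^ (S \ A).card * ((∏ l ∈ A, l : ℕ) : ℤ)) *
        (if ((∏ l ∈ A, l : ℕ) : ℤ) ∣ (y : ℤ) then
          (6 * (y : ℤ) ^ 2 - 6 * y * N + (N : ℤ) ^ 2) else 0) := by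
    intro y _
    rw [← sum_mul, hN, inner n y S hS hn, Finset.prod_add, sum_mul]
    refine sum_congr rfl fun A hA => ?_
    rw [prod_if y A fun l hl => (hS l (mem_powerset.1 hA hl)).1, prod_const]
    split_ifs
    · ring
    · ring
  rw [sum_congr rfl h1, sum_comm, Finset.prod_add, mul_sum]
  refine sum_congr rfl fun A hA => ?_
  rw [← mul_sum]
  obtain ⟨M, hM⟩ : ∃ M, N = (∏ l ∈ A, l) * M := by
    rw [hN]
    exact prod_dvd_prod_of_subset _ _ _ (mem_powerset.1 hA)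
  have h2 := weight (∏ l ∈ A, l) M
  rw [← hM] at h2
  rw [h2, prod_const, Finset.prod_pow]
  push_cast
  ring

theorem eight (l : ℕ) (hl : l.Prime) (hl2 : l ≠ 2) : (8 : ℤ) ∣ (l : ℤ) ^ 2 + (-1) := by
  obtain ⟨k, hk⟩ := hl.odd_of_ne_two hl2
  rw [hk]
  obtain ⟨c, hc⟩ := (Nat.even_mul_succ_self k)
  refine ⟨(c : ℤ), ?_⟩
  have h1 : ((k : ℤ)) * (k + 1) = c + c := by exact_mod_cast hc
  push_cast
  linear_combination 4 * h1

theorem sy : S_SY := by
  intro δ S n hS hn hodd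
  have hne : S.Nonempty := by
    rw [nonempty_iff_ne_empty]
    rintro rfl
    simp [psi] at hodd
  have hN : Pool.Agent.N367.LE.cond S = ∏ l ∈ S, l := by
    rw [Pool.Agent.N367.LE.cond]
    exact prod_congr rfl fun l hl => by rw [cb, if_neg (hS l hl).2]
  have hp : ∀ a : ℤ, psi δ S a = ∏ l ∈ S, jacobiSym a l := by
    intro a
    rw [psi]
    exact prod_congr rfl fun l hl => by rw [sval, if_neg (hS l hl).2]
  have h1 : SYr δ S n = (Pool.Agent.N367.LE.cond S : ℤ) * ∏ l ∈ S, ((l : ℤ) ^ 2 + (-1)) := by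
    rw [← sum_eq n S hS hn (Pool.Agent.N367.LE.cond S) hN, SYr]
    refine sum_congr rfl fun x _ => sum_congr rfl fun y _ => ?_
    rw [hp]
  rw [h1]
  have h2 : (8 : ℤ) ^ S.card ∣ ∏ l ∈ S, ((l : ℤ) ^ 2 + (-1)) := by
    rw [← prod_const]
    exact prod_dvd_prod_of_dvd _ _ fun l hl => eight l (hS l hl).1 (hS l hl).2
  have h3 : (2 : ℤ) ^ (2 * S.card + 1) ∣ 8 ^ S.card := by
    have : (8 : ℤ) = 2 ^ 3 := by norm_num
    rw [this, ← pow_mul]
    apply pow_dvd_pow
    have := hne.card_pos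
    omega
  exact (h3.trans h2).mul_left _

end Pool.Agent.N861.LEsy
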