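import Pool.Agent.N502.TM.Stm

/-!
# TM/BAL: the energy comparison, from a bounded set to the ball
-/

set_option autoImplicit false

namespace Pool.Agent.N861.TM_BAL

open MeasureTheory Set Filter Topology
open scoped ENNReal Real InnerProductSpace
open Pool.Agent.N502.TM

theorem norm_pow_le' {H : Type} [NormedAddCommGroup H] [InnerProductSpace ℝ H] (T : H →L[ℝ] H)
    (hT : ‖T‖ ≤ 1) (k : ℕ) : ‖T ^ k‖ ≤ 1 := by
  induction k with
  | zero => rw [pow_zero]; exact ContinuousLinearMap.norm_id_le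
  | succ k ih =>
    rw [pow_succ]
    calc ‖T ^ k * T‖ ≤ ‖T ^ k‖ * ‖T‖ := ContinuousLinearMap.opNorm_comp_le _ _
      _ ≤ 1 * 1 := mul_le_mul ih hT (norm_nonneg _) zero_le_one
      _ = 1 := one_mul 1

theorem en_cont (hCMB : S_CMB) {H : Type} [NormedAddCommGroup H] [InnerProductSpace ℝ H]
    [CompleteSpace H] (T : H →L[ℝ] H) (hT : ‖T‖ ≤ 1) (b : ℝ) (hb : 0 ≤ b) (hb1 : b < 1) :
    Continuous (en T b) := by
  have hs : Summable fun k : ℕ => (uu k * b ^ k) • T ^ k := by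
    refine Summable.of_norm_bounded (summable_geometric_of_lt_one hb hb1) fun k => ?_
    rw [norm_smul, Real.norm_eq_abs, abs_of_nonneg (mul_nonneg (hCMB.uu_nonneg k) (pow_nonneg hb k))]
    calc uu k * b ^ k * ‖T ^ k‖ ≤ 1 * b ^ k * 1 := by
          have h0 := hCMB.uu_nonneg k
          have h1 := hCMB.uu_le k
          have h2 := norm_pow_le' T hT k
          have h3 : 0 ≤ b ^ k := pow_nonneg hb k
          gcongr
      _ = b ^ k := by ring
  have he : en T b = fun f => ⟪f, (∑' k : ℕ, (uu k * b ^ k) • T ^ k) f⟫_ℝ := by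
    funext f
    rw [en]
    have h1 := ((hs.hasSum.mapL (ContinuousLinearMap.apply ℝ H f)).mapL (innerSL ℝ f))
    have h2 := h1.tsum_eq
    simp only [ContinuousLinearMap.apply_apply, innerSL_apply_apply] at h2
    rw [← h2]
    congr 1
    funext k
    rw [smul_apply, inner_smul_right]
  rw [he]
  exact continuous_id.inner (ContinuousLinearMap.continuous _)

theorem reach (hCMB : S_CMB) (hPLS : S_PLS) (hCMP : S_CMP) (hDEN : S_DEN) (hHIL : S_HIL)
    (hPOL : S_POL) (d : ℕ) (T : ℝ → (L2 d →L[ℝ] L2 d)) (hT : IsHeat d T) (τ b : ℝ) (hτ : 0 < τ)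
    (hb : 0 ≤ b) (hb1 : b < 1) (E : Set (V d)) (hE : MeasurableSet E) (hv : volume E ≠ ∞)
    (J : ℝ) (hJ : ∀ f ∈ Dens E, J ≤ en (T τ) b f) (E' : Set (V d)) (h : Reach E E') :
    MeasurableSet E' ∧ volume E' = volume E ∧ ∀ f ∈ Dens E', J ≤ en (T τ) b f := by
  induction h with
  | refl => exact ⟨hE, rfl, hJ⟩
  | tail _ hst ih =>
    obtain ⟨v, t, hv1, ht, rfl⟩ := hst
    obtain ⟨h1, h2, h3⟩ := ih
    exact ⟨hPLS.meas d v t _ hv1 h1, (hPLS.vol d v t _ hv1 h1).trans h2,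
      hCMP hCMB hHIL hDEN hPLS hPOL d T hT v t τ b hv1 hτ hb hb1 _ h1 (h2 ▸ hv) J h3⟩

/-- cutting a density -/
theorem cut (d : ℕ) (B : Set (V d)) (hB : MeasurableSet B) (hBv : volume B ≠ ∞) (g : L2 d)
    (hg : g ∈ Dens B) (E : Set (V d)) (hE : MeasurableSet E) :
    ∃ h : L2 d, (h : V d → ℝ) =ᵐ[volume] E.indicator g ∧
      ‖g - h‖ = (eLpNorm ((B \ E).indicator g) 2 volume).toReal ∧
      ⟪indicatorConstLp 2 hB hBv (1 : ℝ), h⟫_ℝ = ∫ x, h x := by
  have h1 : MemLp (E.indicator g) 2 volume := (Lp.memLp g).indicator hE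
  refine ⟨h1.toLp _, h1.coeFn_toLp, ?_, ?_⟩
  · rw [Lp.norm_def]
    congr 1
    apply eLpNorm_congr_ae
    filter_upwards [Lp.coeFn_sub g (h1.toLp _), h1.coeFn_toLp, hg.2.1] with x e1 e2 e3
    rw [e1, Pi.sub_apply, e2]
    by_cases hxE : x ∈ E
    · rw [indicator_of_mem hxE, sub_self, indicator_of_notMem (fun hx => hx.2 hxE)]
    · rw [indicator_of_notMem hxE, sub_zero]
      by_cases hxB : x ∈ B
      · rw [indicator_of_mem (show x ∈ B \ E from ⟨hxB, hxE⟩)]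
      · rw [indicator_of_notMem (fun hx => hxB hx.1), e3 hxB]
  · rw [L2.inner_indicatorConstLp_one]
    apply setIntegral_eq_integral_of_ae_compl_eq_zero
    filter_upwards [h1.coeFn_toLp, hg.2.1] with x e2 e3 hx
    rw [e2]
    by_cases hxE : x ∈ E
    · rw [indicator_of_mem hxE, e3 hx]
    · rw [indicator_of_notMem hxE]

theorem dens_smul (d : ℕ) (B E : Set (V d)) (g h : L2 d) (hg : g ∈ Dens B)
    (hh : (h : V d → ℝ) =ᵐ[volume] E.indicator g) (hm : 0 < ∫ x, h x) :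
    (∫ x, h x)⁻¹ • h ∈ Dens E := by
  have hc := Lp.coeFn_smul (∫ x, h x)⁻¹ h
  refine ⟨?_, ?_, ?_⟩
  · filter_upwards [hc, hh, hg.1] with x e1 e2 e3
    rw [e1, Pi.smul_apply, e2, smul_eq_mul]
    apply mul_nonneg (inv_nonneg.2 hm.le)
    by_cases hx : x ∈ E
    · rw [indicator_of_mem hx]; exact e3
    · rw [indicator_of_notMem hx]
  · filter_upwards [hc, hh] with x e1 e2 hx
    rw [e1, Pi.smul_apply, e2, indicator_of_notMem hx, smul_zero]
  · rw [integral_congr_ae hc]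
    simp only [Pi.smul_apply, smul_eq_mul]
    rw [integral_const_mul, inv_mul_cancel₀ hm.ne']

theorem main : S_BAL := by
  intro hCMB hPLS hCMP hPCV hDEN hHIL hPOL d hd T hT τ b hτ hb hb1 E R r hE hER hr hvol J hJ g hg
  have hEv : volume E ≠ ∞ := by
    rw [← hvol]
    exact measure_ball_lt_top.ne
  obtain ⟨B, hBdef⟩ : ∃ B, B = Metric.ball (0 : V d) r := ⟨_, rfl⟩
  rw [← hBdef] at hg hvol
  have hB : MeasurableSet B := hBdef ▸ Metric.isOpen_ball.measurableSet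
  have hBv : volume B ≠ ∞ := hvol ▸ hEv
  -- the approximating sets
  have key : ∀ n : ℕ, ∃ (E' : Set (V d)) (h : L2 d), (∀ f ∈ Dens E', J ≤ en (T τ) b f) ∧
      (h : V d → ℝ) =ᵐ[volume] E'.indicator g ∧ ‖g - h‖ ≤ 1 / ((n : ℝ) + 1) ∧
      ⟪indicatorConstLp 2 hB hBv (1 : ℝ), h⟫_ℝ = ∫ x, h x := by
    intro n
    have hn : (0 : ℝ) < 1 / ((n : ℝ) + 1) := by positivity
    obtain ⟨δ, hδ, hδ2⟩ := (Lp.memLp g).eLpNorm_indicator_le (by norm_num) (by norm_num) hn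
    obtain ⟨E', hR, hE'⟩ := hPCV hPLS d hd E R r hE hER hr (hBdef ▸ hvol) (ENNReal.ofReal δ)
      (ENNReal.ofReal_pos.2 hδ)
    obtain ⟨h1, h2, h3⟩ := reach hCMB hPLS hCMP hDEN hHIL hPOL d T hT τ b hτ hb hb1 E hE hEv J hJ E' hR
    obtain ⟨h, k1, k2, k3⟩ := cut d B hB hBv g hg E' h1
    refine ⟨E', h, h3, k1, ?_, k3⟩
    rw [k2]
    apply ENNReal.toReal_le_of_le_ofReal hn.le
    apply hδ2 _ (hB.diff h1)
    refine le_trans (measure_mono ?_) hE'.le
    rw [← hBdef]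
    intro x hx
    exact Or.inr hx
  choose E' h h1 h2 h3 h4 using key
  have hlim : Tendsto h atTop (𝓝 g) := by
    rw [tendsto_iff_norm_sub_tendsto_zero]
    refine squeeze_zero (fun n => norm_nonneg _) (fun n => ?_) tendsto_one_div_add_atTop_nhds_zero_nat
    rw [norm_sub_rev]
    exact h3 n
  have hg1 : ⟪indicatorConstLp 2 hB hBv (1 : ℝ), g⟫_ℝ = 1 := by
    rw [L2.inner_indicatorConstLp_one, ← hg.2.2]
    exact setIntegral_eq_integral_of_ae_compl_eq_zero hg.2.1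
  have hm : Tendsto (fun n => ∫ x, h n x) atTop (𝓝 1) := by
    have h5 : Tendsto (fun n => ⟪indicatorConstLp 2 hB hBv (1 : ℝ), h n⟫_ℝ) atTop
        (𝓝 ⟪indicatorConstLp 2 hB hBv (1 : ℝ), g⟫_ℝ) :=
      Tendsto.inner tendsto_const_nhds hlim
    rw [hg1] at h5
    exact h5.congr h4
  have hlim2 : Tendsto (fun n => (∫ x, h n x)⁻¹ • h n) atTop (𝓝 g) := by
    have := (hm.inv₀ one_ne_zero).smul hlim
    rwa [inv_one, one_smul] at this
  have hen : Tendsto (fun n => en (T τ) b ((∫ x, h n x)⁻¹ • h n)) atTop (𝓝 (en (T τ) b g)) :=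
    ((en_cont hCMB (T τ) (hT.norm_le τ hτ) b hb hb1).tendsto g).comp hlim2
  refine ge_of_tendsto hen ?_
  filter_upwards [hm.eventually (lt_mem_nhds (zero_lt_one))] with n hn
  exact h1 n _ (dens_smul d B (E' n) g (h n) hg (h2 n) hn)

end Pool.Agent.N861.TM_BAL
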